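import Pool.Agent.Lib.MP_ca0fc2_an.Mg.G002
import Pool.Agent.Lib.MP_ca0fc2_an.Mg.G001
import Pool.Agent.Lib.MP_ca0fc2_an.Mg.G051

/-! The derivative of a holomorphic function is bounded by the mean over an anisotropic
neighbourhood. -/

set_option autoImplicit false

open Metric Set MeasureTheory Filter Topology

namespace Pool.Agent.MPca0fc2.BE

open Pool.Agent.MPca0fc2.FD
open Pool.Agent.Lib.MP_ca0fc2_an

variable {n : ℕ} {U : Set (Ec n)} {δ : Ec n → ℝ} {h : Ec n → Ec n → Fin n → ℂ} {c C : ℝ}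

theorem Om_open (hg : Geo U δ h c C) : IsOpen (Om U δ) :=
  hg.dδ.continuousOn.isOpen_inter_preimage hg.opn isOpen_Ioi

theorem point_est (hg : Geo U δ h c C) {p : Ec n} {r r' : ℝ} (hr : r' < r) (k : ℕ)
    {d : Ec n → ℝ} {L κ : ℝ} (hL : 1 ≤ L) (hκ : 0 < κ)
    (hd : ∀ z ∈ Om U δ ∩ ball p r, 0 < d z ∧ d z ≤ L * δ z) :
    ∃ t K C₁ : ℝ, 0 < t ∧ 0 < K ∧ 0 ≤ C₁ ∧ (∀ z ∈ Om U δ ∩ ball p r', ∀ X ∈ Ez δ h t z,
      z + X ∈ Om U δ ∩ ball p r ∧ δ z / 2 ≤ δ (z + X) ∧ δ (z + X) ≤ 2 * δ z ∧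
        ‖vv δ h z (z + X)‖ ≤ K * δ z) ∧
      ∀ v : Ec n → ℂ, IsHinf (Om U δ ∩ ball p r) v → ∀ G : Ec n → ℝ,
        IntegrableOn (fun z => G z / d z ^ (n + 1)) (Om U δ ∩ ball p r) →
        (∀ φ : ℂ → Ec n, DifferentiableOn ℂ φ (ball 0 1) →
          (∀ x ∈ ball (0 : ℂ) 1, φ x ∈ Om U δ ∩ ball p r) →
          ‖deriv (fun x => v (φ x)) 0‖ ^ k ≤ G (φ 0)) →
        ∀ z ∈ Om U δ ∩ ball p r', ∀ T : Ec n, ‖∑ j, h z z j * T j‖ ≤ δ z → κ * ‖T‖ ^ 2 ≤ δ z →
          ‖fderiv ℂ v z T‖ ^ k ≤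
            C₁ * ∫ w in (fun X => z + X) '' Ez δ h t z, G w / d w ^ (n + 1) := by
  obtain ⟨t₀, K, ht₀, hK, hE⟩ := near_E hg
  have hc := hg.c0
  have hC1 := hg.C1
  have hC0 : 0 < C := by linarith
  have hrr : 0 < r - r' := by linarith
  obtain ⟨t₁, ht₁⟩ : ∃ t₁, t₁ = min t₀ ((r - r') ^ 2 / C) := ⟨_, rfl⟩
  have ht₁0 : 0 < t₁ := by rw [ht₁]; exact lt_min ht₀ (by positivity)
  have ht₁a : t₁ ≤ t₀ := by rw [ht₁]; exact min_le_left _ _
  have ht₁b : t₁ * C ≤ (r - r') ^ 2 := by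
    have : t₁ ≤ (r - r') ^ 2 / C := by rw [ht₁]; exact min_le_right _ _
    rwa [le_div_iff₀ hC0] at this
  have hmono : ∀ z : Ec n, 0 < δ z → ∀ t t' : ℝ, t ≤ t' → Ez δ h t z ⊆ Ez δ h t' z := by
    intro z hz t t' htt X hX
    have h1 : t * δ z ≤ t' * δ z := mul_le_mul_of_nonneg_right htt hz.le
    exact ⟨hX.1.trans_le h1, hX.2.trans_le h1⟩
  -- the neighbourhoods
  have hnear : ∀ z ∈ Om U δ ∩ ball p r', ∀ X ∈ Ez δ h t₁ z,
      z + X ∈ Om U δ ∩ ball p r ∧ δ z / 2 ≤ δ (z + X) ∧ δ (z + X) ≤ 2 * δ z ∧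
        ‖vv δ h z (z + X)‖ ≤ K * δ z := by
    intro z hz X hX
    obtain ⟨h1, h2, h3, h4⟩ := hE z hz.1 X (hmono z hz.1.2 _ _ ht₁a hX)
    refine ⟨⟨h1, ?_⟩, h2, h3, h4⟩
    have h5 : ‖X‖ ^ 2 < (r - r') ^ 2 := by
      have h6 := hg.bδ z hz.1.1
      have h7 : t₁ * δ z ≤ t₁ * C := mul_le_mul_of_nonneg_left h6 ht₁0.le
      exact (hX.1.trans_le h7).trans_le ht₁b
    have h6 : ‖X‖ < r - r' := lt_of_pow_lt_pow_left₀ 2 hrr.le h5
    rw [mem_ball, dist_eq_norm]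
    have h7 : ‖z - p‖ < r' := by rw [← dist_eq_norm]; exact hz.2
    calc ‖z + X - p‖ = ‖(z - p) + X‖ := by congr 1; abel
      _ ≤ ‖z - p‖ + ‖X‖ := norm_add_le _ _
      _ < r := by linarith
  obtain ⟨t, ht⟩ : ∃ t, t = t₁ / 8 := ⟨_, rfl⟩
  have ht0 : 0 < t := by rw [ht]; positivity
  obtain ⟨s, hs⟩ : ∃ s, s = min 1 (min (κ * t₁ / 8) (t₁ / 8)) := ⟨_, rfl⟩
  have hs0 : 0 < s := by rw [hs]; exact lt_min one_pos (lt_min (by positivity) (by positivity))
  have hs1 : s ≤ 1 := by rw [hs]; exact min_le_left _ _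
  have hsc : s ≤ κ * t₁ / 8 := by
    rw [hs]; exact (min_le_right _ _).trans (min_le_left _ _)
  have hst : s ≤ t₁ / 8 := by
    rw [hs]; exact (min_le_right _ _).trans (min_le_right _ _)
  obtain ⟨b, hb, hvol⟩ := vol_lower n C (t * C)
  obtain ⟨C₁, hC₁⟩ : ∃ C₁, C₁ = (2 * L) ^ (n + 1) / (b * t ^ (n + 1) * s ^ k) := ⟨_, rfl⟩
  have hC₁0 : 0 ≤ C₁ := by rw [hC₁]; positivity
  refine ⟨t, K, C₁, ht0, hK, hC₁0, fun z hz X hX => hnear z hz X
    (hmono z hz.1.2 _ _ (by rw [ht]; linarith) hX), fun v hv G hG hvG z hz T hT1 hT2 => ?_⟩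
  obtain ⟨hvd, M, hM⟩ := hv
  have hδ : 0 < δ z := hz.1.2
  have hWo : IsOpen (Om U δ ∩ ball p r) := (Om_open hg).inter isOpen_ball
  -- discs
  have hdisc : ∀ X ∈ Ez δ h t z, ∀ x : ℂ, ‖x‖ < 1 →
      z + X + x • ((s : ℂ) • T) ∈ Om U δ ∩ ball p r := by
    intro X hX x hx
    have h1 : X + x • ((s : ℂ) • T) ∈ Ez δ h t₁ z := by
      have e0 : ‖x • ((s : ℂ) • T)‖ ≤ s * ‖T‖ := by
        rw [norm_smul, norm_smul, Complex.norm_real, Real.norm_of_nonneg hs0.le]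
        exact mul_le_of_le_one_left (by positivity) hx.le
      constructor
      · have e1 : ‖X + x • ((s : ℂ) • T)‖ ≤ ‖X‖ + s * ‖T‖ := (norm_add_le _ _).trans (by linarith)
        have e2 : s ^ 2 * ‖T‖ ^ 2 ≤ t₁ / 8 * δ z := by
          have e3 : s ^ 2 ≤ κ * t₁ / 8 := by nlinarith
          calc s ^ 2 * ‖T‖ ^ 2 ≤ κ * t₁ / 8 * ‖T‖ ^ 2 :=
                mul_le_mul_of_nonneg_right e3 (sq_nonneg _)
            _ = t₁ / 8 * (κ * ‖T‖ ^ 2) := by ring
            _ ≤ t₁ / 8 * δ z := mul_le_mul_of_nonneg_left hT2 (by positivity)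
        have e4 := hX.1
        rw [ht] at e4
        calc ‖X + x • ((s : ℂ) • T)‖ ^ 2 ≤ (‖X‖ + s * ‖T‖) ^ 2 :=
              pow_le_pow_left₀ (norm_nonneg _) e1 2
          _ ≤ 2 * ‖X‖ ^ 2 + 2 * (s ^ 2 * ‖T‖ ^ 2) := by nlinarith [sq_nonneg (‖X‖ - s * ‖T‖)]
          _ < t₁ * δ z := by nlinarith [mul_pos ht₁0 hδ]
      · have e1 : ∑ j, h z z j * (X + x • ((s : ℂ) • T)) j =
            (∑ j, h z z j * X j) + x * s * ∑ j, h z z j * T j := by
          rw [Finset.mul_sum, ← Finset.sum_add_distrib]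
          refine Finset.sum_congr rfl fun j _ => ?_
          show h z z j * (X j + x * ((s : ℂ) * T j)) = _
          ring
        rw [e1]
        have e2 : ‖x * s * ∑ j, h z z j * T j‖ ≤ s * δ z := by
          rw [norm_mul, norm_mul, Complex.norm_real, Real.norm_of_nonneg hs0.le]
          exact mul_le_mul (mul_le_of_le_one_left hs0.le hx.le) hT1 (norm_nonneg _) hs0.le
        have e3 := hX.2
        rw [ht] at e3
        calc ‖(∑ j, h z z j * X j) + x * s * ∑ j, h z z j * T j‖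
            ≤ ‖∑ j, h z z j * X j‖ + ‖x * s * ∑ j, h z z j * T j‖ := norm_add_le _ _
          _ < t₁ / 8 * δ z + s * δ z := by linarith
          _ ≤ t₁ * δ z := by nlinarith [mul_pos ht₁0 hδ]
    have h2 := (hnear z hz _ h1).1
    rwa [← add_assoc] at h2
  -- the derivative along discs
  have hder : ∀ X ∈ Ez δ h t z, ‖fderiv ℂ v (z + X) T‖ ≤ (2 * |M| + 1) / s ∧
      ‖fderiv ℂ v (z + X) T‖ ^ k ≤ G (z + X) / s ^ k := by
    intro X hX
    obtain ⟨φ, hφ⟩ : ∃ φ : ℂ → Ec n, φ = fun x => z + X + x • ((s : ℂ) • T) := ⟨_, rfl⟩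
    have hφd : Differentiable ℂ φ := by
      rw [hφ]
      exact (differentiable_id.smul_const _).const_add _
    have hφD : ∀ x ∈ ball (0 : ℂ) 1, φ x ∈ Om U δ ∩ ball p r := by
      intro x hx
      rw [hφ]
      exact hdisc X hX x (mem_ball_zero_iff.1 hx)
    have hφ0 : φ 0 = z + X := by rw [hφ]; simp
    have hzX : z + X ∈ Om U δ ∩ ball p r := hφ0 ▸ hφD 0 (mem_ball_self one_pos)
    have hφ' : HasDerivAt φ ((s : ℂ) • T) 0 := by
      rw [hφ]
      simpa using ((hasDerivAt_id (0 : ℂ)).smul_const ((s : ℂ) • T)).const_add (z + X)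
    have hv' : HasFDerivAt v (fderiv ℂ v (φ 0)) (φ 0) := by
      rw [hφ0]
      exact (hvd.differentiableAt (hWo.mem_nhds hzX)).hasFDerivAt
    have e1 : deriv (fun x => v (φ x)) 0 = s * fderiv ℂ v (z + X) T := by
      have := (hv'.comp_hasDerivAt (0 : ℂ) hφ').deriv
      rw [hφ0, map_smul, smul_eq_mul] at this
      exact this
    have e2 := hvG φ hφd.differentiableOn hφD
    rw [e1, hφ0, norm_mul, Complex.norm_real, Real.norm_of_nonneg hs0.le, mul_pow] at e2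
    constructor
    · have hd1 : DifferentiableOn ℂ (fun x => v (φ x)) (ball 0 1) :=
        hvd.comp hφd.differentiableOn hφD
      have hmaps : MapsTo (fun x => v (φ x)) (ball 0 1)
          (ball ((fun x => v (φ x)) 0) (2 * |M| + 1)) := by
        intro x hx
        rw [mem_ball, dist_eq_norm]
        have h3 := hM _ (hφD x hx)
        have h4 := hM _ (hφD 0 (mem_ball_self one_pos))
        have h5 := le_abs_self M
        calc ‖v (φ x) - v (φ 0)‖ ≤ ‖v (φ x)‖ + ‖v (φ 0)‖ := norm_sub_le _ _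
          _ < 2 * |M| + 1 := by linarith
      have h6 := Complex.norm_deriv_le_div_of_mapsTo_ball hd1
        (hmaps.mono_right ball_subset_closedBall) one_pos
      rw [e1, norm_mul, Complex.norm_real, Real.norm_of_nonneg hs0.le, div_one] at h6
      rw [le_div_iff₀ hs0]
      linarith
    · rw [le_div_iff₀ (by positivity)]
      linarith
  -- the mean value property
  have hEo := Ez_open δ h t z
  have hEimg : IsOpen ((fun X => z + X) '' Ez δ h t z) :=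
    (Homeomorph.addLeft z).isOpenMap _ hEo
  have hsub : (fun X => z + X) '' Ez δ h t z ⊆ Om U δ ∩ ball p r := by
    rintro _ ⟨X, hX, rfl⟩
    exact (hnear z hz X (hmono z hδ _ _ (by rw [ht]; linarith) hX)).1
  have hgd : DifferentiableOn ℂ (fun w => (fderiv ℂ v w T) ^ k)
      ((fun X => z + X) '' Ez δ h t z) := by
    have h1 := (hol_fderiv hWo hvd).mono hsub
    exact (h1.clm_apply (differentiableOn_const T)).pow k
  have hmean := circ_mean hEo (Ez_bdd δ h t z) (fun X hX u hu => Ez_bal hX hu) hEimg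
    (fun X hX => mem_image_of_mem _ hX) hgd (M := ((2 * |M| + 1) / s) ^ k) (by
      rintro _ ⟨X, hX, rfl⟩
      rw [norm_pow]
      exact pow_le_pow_left₀ (norm_nonneg _) (hder X hX).1 k)
  -- the volume
  have hvolz : b * (t * δ z) ^ (n + 1) ≤ volume.real (Ez δ h t z) := by
    refine hvol (h z z) (fun j => (norm_le_pi_norm _ j).trans (hg.bh z hz.1.1 z hz.1.1))
      (t * δ z) (by positivity) (mul_le_mul_of_nonneg_left (hg.bδ z hz.1.1) ht0.le)
  -- the integral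
  have hmp := measurePreserving_add_left (volume : Measure (Ec n)) z
  have hme : MeasurableEmbedding fun X : Ec n => z + X := (Homeomorph.addLeft z).measurableEmbedding
  have hGi : IntegrableOn (fun w => G w / d w ^ (n + 1)) ((fun X => z + X) '' Ez δ h t z) :=
    hG.mono_set hsub
  have hGi' : IntegrableOn ((fun w => G w / d w ^ (n + 1)) ∘ fun X => z + X) (Ez δ h t z) :=
    (hmp.integrableOn_image hme).1 hGi
  have hint : ∫ w in (fun X => z + X) '' Ez δ h t z, G w / d w ^ (n + 1) =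
      ∫ X in Ez δ h t z, G (z + X) / d (z + X) ^ (n + 1) :=
    hmp.setIntegral_image_emb hme _ _
  have hup : ∫ X in Ez δ h t z, ‖(fderiv ℂ v (z + X) T) ^ k‖ ≤
      ∫ X in Ez δ h t z, (2 * L * δ z) ^ (n + 1) / s ^ k * (G (z + X) / d (z + X) ^ (n + 1)) := by
    refine integral_mono_of_nonneg (ae_of_all _ fun X => norm_nonneg _)
      (hGi'.const_mul _) ?_
    refine (ae_restrict_iff' hEo.measurableSet).2 (ae_of_all _ fun X hX => ?_)
    obtain ⟨h1, h2, h3, -⟩ := hnear z hz X (hmono z hδ _ _ (by rw [ht]; linarith) hX)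
    obtain ⟨h4, h5⟩ := hd _ h1
    have h6 := (hder X hX).2
    have hG0 : 0 ≤ G (z + X) := by
      have : 0 ≤ G (z + X) / s ^ k := (by positivity : (0 : ℝ) ≤ _).trans h6
      exact (div_nonneg_iff.1 this).elim (fun h => h.1) fun h => absurd h.2 (not_le.2 (by positivity))
    have h7 : d (z + X) ≤ 2 * L * δ z := by nlinarith
    beta_reduce
    rw [norm_pow]
    refine h6.trans ?_
    have h8 : d (z + X) ^ (n + 1) ≤ (2 * L * δ z) ^ (n + 1) := pow_le_pow_left₀ h4.le h7 _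
    have h9 : 0 < d (z + X) ^ (n + 1) := by positivity
    calc G (z + X) / s ^ k = d (z + X) ^ (n + 1) * (G (z + X) / d (z + X) ^ (n + 1)) / s ^ k := by
          rw [mul_div_cancel₀ _ h9.ne']
      _ ≤ (2 * L * δ z) ^ (n + 1) * (G (z + X) / d (z + X) ^ (n + 1)) / s ^ k := by
          gcongr
      _ = (2 * L * δ z) ^ (n + 1) / s ^ k * (G (z + X) / d (z + X) ^ (n + 1)) := by ring
  rw [norm_pow] at hmean
  rw [hint]
  rw [integral_const_mul] at hup
  obtain ⟨J, hJ⟩ : ∃ J, J = ∫ X in Ez δ h t z, G (z + X) / d (z + X) ^ (n + 1) := ⟨_, rfl⟩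
  rw [← hJ] at hup ⊢
  have hfin : b * (t * δ z) ^ (n + 1) * ‖fderiv ℂ v z T‖ ^ k ≤ (2 * L * δ z) ^ (n + 1) / s ^ k * J :=
    (mul_le_mul_of_nonneg_right hvolz (by positivity)).trans (hmean.trans hup)
  have hpos : 0 < b * (t * δ z) ^ (n + 1) := by positivity
  have h1 : ‖fderiv ℂ v z T‖ ^ k ≤ (2 * L * δ z) ^ (n + 1) / s ^ k * J / (b * (t * δ z) ^ (n + 1)) := by
    rw [le_div_iff₀ hpos]
    linarith
  refine h1.trans (le_of_eq ?_)
  rw [hC₁, mul_pow (2 * L) (δ z), mul_pow t (δ z)]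
  field_simp

end Pool.Agent.MPca0fc2.BE
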