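import Pool.Agent.Lib.MP_ca0fc2_an.BE.M1
import Pool.Agent.Lib.MP_ca0fc2_an.Mg.G003
import Pool.Agent.Lib.MP_ca0fc2_an.GW.I2
import Pool.Agent.Lib.MP_ca0fc2_an.GW.M4a

/-! Functions with a finite Besov integral near a boundary point are in the Carleson class. -/

set_option autoImplicit false

open Metric Set MeasureTheory Filter Topology

namespace Pool.Agent.MPca0fc2.BE

open Pool.Agent.MPca0fc2.FD
open Pool.Agent.Lib.MP_ca0fc2_an

variable {n : ℕ}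

/-- the support function is bounded -/
theorem vv_bdd {U : Set (Ec n)} {δ : Ec n → ℝ} {h : Ec n → Ec n → Fin n → ℂ} {c C : ℝ}
    (hg : Geo U δ h c C) : ∃ B > 0, ∀ z ∈ U, ∀ ζ ∈ Om U δ, ‖vv δ h z ζ‖ ≤ B := by
  have hC1 := hg.C1
  refine ⟨C + n * (C * (C + C)), by positivity, fun z hz ζ hζ => ?_⟩
  have h1 := hg.bδ ζ hζ.1
  have h2 := hg.bh z hz ζ hζ.1
  have h3 := hg.bz z hz
  have h4 := hg.bz ζ hζ.1
  have h5 : ‖((δ ζ : ℝ) : ℂ)‖ ≤ C := by
    rw [Complex.norm_real, Real.norm_of_nonneg hζ.2.le]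
    exact h1
  have h6 : ∀ k, ‖h z ζ k * (ζ k - z k)‖ ≤ C * (C + C) := by
    intro k
    rw [norm_mul]
    refine mul_le_mul ((norm_le_pi_norm _ k).trans h2) ?_ (norm_nonneg _) (by linarith)
    calc ‖ζ k - z k‖ ≤ ‖ζ k‖ + ‖z k‖ := norm_sub_le _ _
      _ ≤ ‖ζ‖ + ‖z‖ := add_le_add (PiLp.norm_apply_le ζ k) (PiLp.norm_apply_le z k)
      _ ≤ C + C := add_le_add h4 h3
  calc ‖vv δ h z ζ‖ ≤ ‖((δ ζ : ℝ) : ℂ)‖ + ‖∑ k, h z ζ k * (ζ k - z k)‖ := norm_add_le _ _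
    _ ≤ C + ∑ k : Fin n, C * (C + C) :=
        add_le_add h5 ((norm_sum_le _ _).trans (Finset.sum_le_sum fun k _ => h6 k))
    _ = C + n * (C * (C + C)) := by
        rw [Finset.sum_const, Finset.card_univ, Fintype.card_fin, nsmul_eq_mul]

theorem vv_hol {U : Set (Ec n)} {δ : Ec n → ℝ} {h : Ec n → Ec n → Fin n → ℂ} {c C : ℝ}
    (hg : Geo U δ h c C) {ζ : Ec n} (hζ : ζ ∈ U) :
    DifferentiableOn ℂ (fun z => vv δ h z ζ) U := by
  have h1 := differentiableOn_pi.1 (hg.hol ζ hζ)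
  have h2 : DifferentiableOn ℂ (fun z : Ec n => ∑ k, h z ζ k * (ζ k - z k)) U := by
    refine DifferentiableOn.fun_sum fun k _ => (h1 k).mul ?_
    exact (differentiableOn_const _).sub
      (EuclideanSpace.proj (𝕜 := ℂ) k).differentiable.differentiableOn
  exact (differentiableOn_const _).add h2

/-- **The natural exponents.** -/
theorem besov_nat (hn : 1 ≤ n) {D U : Set (Ec n)} {ρ : Ec n → ℝ}
    {h : Ec n → Ec n → Fin n → ℂ} {c : ℝ} (hs : SupportData D U ρ h c) {p : Ec n}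
    (hp : p ∈ frontier D) :
    ∃ R > 0, ∀ r r' : ℝ, r' < r → r' ≤ R → ∀ v : Ec n → ℂ, IsHinf (D ∩ ball p r) v →
      ∀ (k : ℕ) (G : Ec n → ℝ), 1 ≤ k →
      IntegrableOn (fun z => G z / infDist z Dᶜ ^ (n + 1)) (D ∩ ball p r) →
      (∀ φ : ℂ → Ec n, DifferentiableOn ℂ φ (ball 0 1) →
        (∀ x ∈ ball (0 : ℂ) 1, φ x ∈ D ∩ ball p r) →
        ‖deriv (fun x => v (φ x)) 0‖ ^ k ≤ G (φ 0)) →
      v ∈ CarlOn D (ball p r') := by
  obtain ⟨U', c', C', -, -, hDU, hg, hOm⟩ := sup_geo hs isOpen_univ (subset_univ _)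
  obtain ⟨L, r₁, hL, hr₁, hLd⟩ := Pool.Agent.MPca0fc2.GW.dist_rho hs hp
  obtain ⟨δ, hδdef⟩ : ∃ δ : Ec n → ℝ, δ = fun z => -ρ z := ⟨_, rfl⟩
  rw [← hδdef] at hg hOm
  obtain ⟨r₂, hr₂, hball⟩ := Metric.isOpen_iff.1 hg.opn p (hDU (frontier_subset_closure hp))
  obtain ⟨K₂, hK₂, hlip⟩ := vv_lip hg
  obtain ⟨B, hB, hvB⟩ := vv_bdd hg
  have hDo : IsOpen D := hOm ▸ Om_open hg
  have hDne : D.Nonempty := by
    rw [← closure_nonempty_iff]
    exact ⟨p, frontier_subset_closure hp⟩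
  refine ⟨min (r₁ / 2) r₂, lt_min (by positivity) hr₂, fun r r' hr hrR v hv k G hk hG hvG => ?_⟩
  have hr'1 : r' < r₁ := by
    have := hrR.trans (min_le_left _ _)
    linarith
  have hr'2 : r' ≤ r₂ := hrR.trans (min_le_right _ _)
  obtain ⟨s, hs'⟩ : ∃ s, s = min r r₁ := ⟨_, rfl⟩
  have hr's : r' < s := by rw [hs']; exact lt_min hr hr'1
  have hsr : s ≤ r := by rw [hs']; exact min_le_left _ _
  have hsr₁ : s ≤ r₁ := by rw [hs']; exact min_le_right _ _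
  have hsub1 : D ∩ ball p s ⊆ D ∩ ball p r := inter_subset_inter_right _ (ball_subset_ball hsr)
  have hsub2 : D ∩ ball p r' ⊆ D ∩ ball p s :=
    inter_subset_inter_right _ (ball_subset_ball hr's.le)
  have hsub3 : D ∩ ball p r' ⊆ D ∩ ball p r := hsub2.trans hsub1
  -- the distance
  have hd : ∀ z ∈ D ∩ ball p s, 0 < infDist z Dᶜ ∧ infDist z Dᶜ ≤ L * δ z ∧
      δ z ≤ L * infDist z Dᶜ := by
    intro z hz
    obtain ⟨h1, h2, h3⟩ := hLd z ⟨hz.1, ball_subset_ball hsr₁ hz.2⟩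
    have h4 : 0 < δ z := by
      have := hOm ▸ hz.1
      exact this.2
    have h5 : |ρ z| = δ z := by
      rw [hδdef] at h4 ⊢
      beta_reduce at h4 ⊢
      rw [abs_of_neg (by linarith)]
    rw [h5] at h1 h2
    exact ⟨h3, h2, h1⟩
  have hOmD : ∀ z, z ∈ D ↔ z ∈ U' ∧ 0 < δ z := by
    intro z
    rw [← hOm]
    rfl
  obtain ⟨t, K, C₁, ht, hK, hC₁, hnear, hest⟩ := point_est hg hr's k (d := fun z => infDist z Dᶜ)
    hL hs.c0 (by
      rw [hOm]
      exact fun z hz => ⟨(hd z hz).1, (hd z hz).2.1⟩)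
  rw [hOm] at hnear hest
  have hest1 := hest v ⟨hv.1.mono hsub1, hv.2.choose, fun z hz => hv.2.choose_spec z (hsub1 hz)⟩
    G (hG.mono_set hsub1) fun φ hφ hφD => hvG φ hφ fun x hx => hsub1 (hφD x hx)
  -- `G` is nonnegative
  have hG0 : ∀ z ∈ D ∩ ball p r, 0 ≤ G z := by
    intro z hz
    have h1 := hvG (fun _ => z) (differentiableOn_const _) fun x _ => hz
    rw [deriv_const, norm_zero, zero_pow (by omega)] at h1
    exact h1
  obtain ⟨Φ, hΦ⟩ : ∃ Φ : Ec n → ℝ, Φ = fun z => G z / infDist z Dᶜ ^ (n + 1) := ⟨_, rfl⟩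
  have hΦ0 : ∀ z ∈ D ∩ ball p s, 0 ≤ Φ z := by
    intro z hz
    rw [hΦ]
    exact div_nonneg (hG0 z (hsub1 hz)) (pow_nonneg infDist_nonneg _)
  have hΦi : IntegrableOn Φ (D ∩ ball p s) := by
    rw [hΦ]
    exact hG.mono_set hsub1
  -- the partition
  have hδc : ContinuousOn δ D := by
    refine hg.dδ.continuousOn.mono fun z hz => ((hOmD z).1 hz).1
  obtain ⟨x, A, hx, hAm, hAd, hAU, hAx⟩ := exists_partition hDo hDne
    (g := fun z => min c' (δ z / (2 * K₂)))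
    (by
      have h1 : ContinuousOn (fun z => δ z / (2 * K₂)) D := hδc.div_const _
      exact ContinuousOn.inf continuousOn_const h1)
    (fun z hz => lt_min hg.c0 (div_pos ((hOmD z).1 hz).2 (by positivity)))
  obtain ⟨J, hJ⟩ : ∃ J : ℕ → ℝ, J = fun i => ∫ w in A i ∩ ball p s, Φ w := ⟨_, rfl⟩
  have hJset : ∀ i, A i ∩ ball p s ⊆ D ∩ ball p s := fun i =>
    inter_subset_inter_left _ (hAU ▸ subset_iUnion A i)
  have hJm : ∀ i, MeasurableSet (A i ∩ ball p s) := fun i => (hAm i).inter measurableSet_ball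
  have hJ0 : ∀ i, 0 ≤ J i := by
    intro i
    rw [hJ]
    exact setIntegral_nonneg (hJm i) fun w hw => hΦ0 w (hJset i hw)
  have hJs : HasSum J (∫ w in D ∩ ball p s, Φ w) := by
    have e1 : D ∩ ball p s = ⋃ i, A i ∩ ball p s := by rw [← iUnion_inter, hAU]
    rw [e1, hJ]
    refine hasSum_integral_iUnion hJm (fun i j hij => ?_) (e1 ▸ hΦi)
    exact (hAd hij).mono inter_subset_left inter_subset_left
  -- the constants
  obtain ⟨C₂, hC₂⟩ : ∃ C₂ : ℝ, C₂ = 16 * L ^ (1 / 4 : ℝ) * (K + 1) ^ (9 / 4 : ℝ) := ⟨_, rfl⟩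
  have hL0 : 0 < L := by linarith
  have hC₂0 : 0 < C₂ := by rw [hC₂]; positivity
  have hC₁₂ : 0 ≤ C₁ * C₂ := by positivity
  have hpos : ∀ z ∈ D ∩ ball p s, ∀ i, δ z + δ (x i) ≤ 2 * (vv δ h z (x i)).re := by
    intro z hz i
    have h1 := hg.pos z ((hOmD z).1 hz.1).1 (x i) ((hOmD _).1 (hx i)).1
    have h2 : 0 ≤ c' * ‖x i - z‖ ^ 2 := mul_nonneg hg.c0.le (sq_nonneg _)
    linarith
  have hδ0 : ∀ z ∈ D, 0 < δ z := fun z hz => ((hOmD z).1 hz).2
  have hV0 : ∀ z ∈ D ∩ ball p s, ∀ i, 0 < ‖vv δ h z (x i)‖ ∧ δ (x i) ≤ 2 * ‖vv δ h z (x i)‖ ∧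
      infDist z Dᶜ ≤ 2 * L * ‖vv δ h z (x i)‖ := by
    intro z hz i
    have h1 := hpos z hz i
    have h2 := hδ0 z hz.1
    have h3 := hδ0 _ (hx i)
    have h4 := Complex.re_le_norm (vv δ h z (x i))
    have h5 := (hd z hz).2.1
    refine ⟨by linarith, by linarith, h5.trans ?_⟩
    have h6 : δ z ≤ 2 * ‖vv δ h z (x i)‖ := by linarith
    nlinarith
  have hS0 : 0 ≤ ∫ w in D ∩ ball p s, Φ w :=
    setIntegral_nonneg (hDo.measurableSet.inter measurableSet_ball) fun w hw => hΦ0 w hw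
  refine ⟨⟨hv.1.mono hsub3, hv.2.choose, fun z hz => hv.2.choose_spec z (hsub3 hz)⟩,
    max B (max (2 * L) (C₁ * C₂ * (4 * L) * ∫ w in D ∩ ball p s, Φ w)), k,
    fun i z => vv δ h z (x i), fun i => δ (x i), fun i => C₁ * C₂ * J i, by exact_mod_cast hk,
    ⟨fun i => ⟨hδ0 _ (hx i), mul_nonneg hC₁₂ (hJ0 i)⟩, fun i => ?_, fun i z hz => ?_,
      fun i z hz => ?_, fun z hz m => ?_⟩, fun φ hφ hφD => ?_⟩
  · exact (vv_hol hg ((hOmD _).1 (hx i)).1).mono ((ball_subset_ball hr'2).trans hball)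
  · exact (hvB z (hball (ball_subset_ball hr'2 hz)) (x i) ((hOmD _).1 (hx i))).trans
      (le_max_left _ _)
  · have h1 := hpos z (hsub2 hz) i
    have h2 := (hd z (hsub2 hz)).2.1
    have h3 := hδ0 _ (hx i)
    have h4 := hδ0 z hz.1
    have h5 : 0 ≤ (vv δ h z (x i)).re := by linarith
    calc δ (x i) + infDist z Dᶜ ≤ L * (δ z + δ (x i)) := by nlinarith
      _ ≤ L * (2 * (vv δ h z (x i)).re) := mul_le_mul_of_nonneg_left h1 hL0.le
      _ = 2 * L * (vv δ h z (x i)).re := by ring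
      _ ≤ _ := mul_le_mul_of_nonneg_right ((le_max_left _ _).trans (le_max_right _ _)) h5
  · refine le_trans ?_ ((le_max_right _ _).trans (le_max_right _ _))
    have h1 : ∀ i, C₁ * C₂ * J i * δ (x i) * infDist z Dᶜ / ‖vv δ h z (x i)‖ ^ 2 ≤
        C₁ * C₂ * (4 * L) * J i := by
      intro i
      obtain ⟨h2, h3, h4⟩ := hV0 z (hsub2 hz) i
      rw [div_le_iff₀ (by positivity)]
      have h5 : δ (x i) * infDist z Dᶜ ≤ 4 * L * ‖vv δ h z (x i)‖ ^ 2 := by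
        calc δ (x i) * infDist z Dᶜ ≤ (2 * ‖vv δ h z (x i)‖) * (2 * L * ‖vv δ h z (x i)‖) :=
              mul_le_mul h3 h4 infDist_nonneg (by positivity)
          _ = _ := by ring
      have h6 : 0 ≤ C₁ * C₂ * J i := mul_nonneg hC₁₂ (hJ0 i)
      calc C₁ * C₂ * J i * δ (x i) * infDist z Dᶜ = C₁ * C₂ * J i * (δ (x i) * infDist z Dᶜ) := by
            ring
        _ ≤ C₁ * C₂ * J i * (4 * L * ‖vv δ h z (x i)‖ ^ 2) := mul_le_mul_of_nonneg_left h5 h6
        _ = _ := by ring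
    calc ∑ i ∈ Finset.range m, C₁ * C₂ * J i * δ (x i) * infDist z Dᶜ / ‖vv δ h z (x i)‖ ^ 2
        ≤ ∑ i ∈ Finset.range m, C₁ * C₂ * (4 * L) * J i := Finset.sum_le_sum fun i _ => h1 i
      _ = C₁ * C₂ * (4 * L) * ∑ i ∈ Finset.range m, J i := by rw [Finset.mul_sum]
      _ ≤ _ := mul_le_mul_of_nonneg_left (sum_le_hasSum _ (fun i _ => hJ0 i) hJs) (by positivity)
  · have h0 := hφD 0 (mem_ball_self one_pos)
    obtain ⟨z, hz⟩ : ∃ z, z = φ 0 := ⟨_, rfl⟩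
    obtain ⟨T, hT⟩ : ∃ T, T = deriv φ 0 := ⟨_, rfl⟩
    rw [← hz] at h0
    have hz1 : z ∈ D ∩ ball p s := hsub2 h0
    obtain ⟨hk1, hk2⟩ := Pool.Agent.MPca0fc2.GW.disc_kob hs hφ fun x hx => (hφD x hx).1
    rw [← hz, ← hT] at hk1 hk2
    have hρ : |ρ z| = δ z := by
      have h4 := hδ0 z h0.1
      rw [hδdef] at h4 ⊢
      beta_reduce at h4 ⊢
      rw [abs_of_neg (by linarith)]
    rw [hρ] at hk1 hk2
    have hDB : IsOpen (D ∩ ball p r) := hDo.inter isOpen_ball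
    have hder : deriv (fun x => v (φ x)) 0 = fderiv ℂ v z T := by
      have h1 : HasFDerivAt v (fderiv ℂ v (φ 0)) (φ 0) := by
        rw [← hz]
        exact (hv.1.differentiableAt (hDB.mem_nhds (hsub3 h0))).hasFDerivAt
      have h2 : HasDerivAt φ (deriv φ 0) 0 :=
        (hφ.differentiableAt (isOpen_ball.mem_nhds (mem_ball_self one_pos))).hasDerivAt
      rw [hz, hT]
      exact (h1.comp_hasDerivAt (0 : ℂ) h2).deriv
    have h1 := hest1 z h0 T hk1 hk2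
    rw [hder, Real.rpow_natCast, ← hz]
    refine h1.trans ?_
    -- the sum over the pieces
    obtain ⟨E, hE⟩ : ∃ E, E = (fun X => z + X) '' Ez δ h t z := ⟨_, rfl⟩
    have hEo : IsOpen E := by
      rw [hE]
      exact (Homeomorph.addLeft z).isOpenMap _ (Ez_open δ h t z)
    have hED : E ⊆ D ∩ ball p s := by
      rw [hE]
      rintro _ ⟨X, hX, rfl⟩
      exact (hnear z h0 X hX).1
    have hsumE : HasSum (fun i => ∫ w in E ∩ A i, Φ w) (∫ w in E, Φ w) := by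
      have e1 : E = ⋃ i, E ∩ A i := by
        rw [← inter_iUnion, hAU]
        exact (inter_eq_left.2 fun w hw => (hED hw).1).symm
      nth_rewrite 2 [e1]
      refine hasSum_integral_iUnion (fun i => hEo.measurableSet.inter (hAm i)) (fun i j hij => ?_)
        (e1 ▸ hΦi.mono_set hED)
      exact (hAd hij).mono inter_subset_right inter_subset_right
    have hterm : ∀ i, C₁ * ∫ w in E ∩ A i, Φ w ≤
        C₁ * C₂ * J i * δ (x i) ^ 2 *
          (infDist z Dᶜ ^ (1 / 4 : ℝ) / ‖vv δ h z (x i)‖ ^ (9 / 4 : ℝ)) := by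
      intro i
      have hnn : 0 ≤ C₁ * C₂ * J i * δ (x i) ^ 2 *
          (infDist z Dᶜ ^ (1 / 4 : ℝ) / ‖vv δ h z (x i)‖ ^ (9 / 4 : ℝ)) := by
        have := hJ0 i
        have h3 : 0 ≤ infDist z Dᶜ := infDist_nonneg
        positivity
      rcases (E ∩ A i).eq_empty_or_nonempty with he | ⟨w, hwE, hwA⟩
      · rw [he, setIntegral_empty, mul_zero]
        exact hnn
      rw [hE] at hwE
      obtain ⟨X, hX, hXw⟩ := hwE
      obtain ⟨h2, h3, h4, h5⟩ := hnear z h0 X hX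
      beta_reduce at hXw
      rw [hXw] at h2 h3 h4 h5
      have h6 := hAx i w hwA
      have h7 : ‖x i - w‖ < c' := by
        rw [norm_sub_rev]
        exact h6.trans_le (min_le_left _ _)
      have h8 : K₂ * ‖x i - w‖ ≤ δ w / 2 := by
        have h9 : ‖x i - w‖ < δ w / (2 * K₂) := by
          rw [norm_sub_rev]
          exact h6.trans_le (min_le_right _ _)
        rw [lt_div_iff₀ (by positivity)] at h9
        linarith
      have hwD := (hOmD w).1 h2.1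
      obtain ⟨-, h9, h10⟩ := hlip z ((hOmD z).1 h0.1).1 w (hOm ▸ h2.1) (x i) h7
      have hδz := hδ0 z h0.1
      have h11 : δ z / 4 ≤ δ (x i) := by
        have := (abs_le.1 h9).1
        linarith
      have h12 : ‖vv δ h z (x i)‖ ≤ (K + 1) * δ z := by
        calc ‖vv δ h z (x i)‖ = ‖(vv δ h z (x i) - vv δ h z w) + vv δ h z w‖ := by
              congr 1; ring
          _ ≤ ‖vv δ h z (x i) - vv δ h z w‖ + ‖vv δ h z w‖ := norm_add_le _ _
          _ ≤ (K + 1) * δ z := by linarith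
      have hVpos := (hV0 z hz1 i).1
      have hdz := (hd z hz1).1
      have h13 : δ z / L ≤ infDist z Dᶜ := by
        rw [div_le_iff₀ hL0]
        linarith [(hd z hz1).2.2]
      -- the kernel is bounded below
      have h14 : 1 ≤ C₂ * (δ (x i) ^ 2 *
          (infDist z Dᶜ ^ (1 / 4 : ℝ) / ‖vv δ h z (x i)‖ ^ (9 / 4 : ℝ))) := by
        have e1 : (δ z / 4) ^ 2 ≤ δ (x i) ^ 2 := pow_le_pow_left₀ (by positivity) h11 2
        have e2 : (δ z / L) ^ (1 / 4 : ℝ) ≤ infDist z Dᶜ ^ (1 / 4 : ℝ) :=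
          Real.rpow_le_rpow (by positivity) h13 (by norm_num)
        have e3 : ‖vv δ h z (x i)‖ ^ (9 / 4 : ℝ) ≤ ((K + 1) * δ z) ^ (9 / 4 : ℝ) :=
          Real.rpow_le_rpow (norm_nonneg _) h12 (by norm_num)
        have e4 : (δ z / L) ^ (1 / 4 : ℝ) / ((K + 1) * δ z) ^ (9 / 4 : ℝ) ≤
            infDist z Dᶜ ^ (1 / 4 : ℝ) / ‖vv δ h z (x i)‖ ^ (9 / 4 : ℝ) :=
          div_le_div₀ (by positivity) e2 (by positivity) e3
        have e5 : C₂ * ((δ z / 4) ^ 2 *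
            ((δ z / L) ^ (1 / 4 : ℝ) / ((K + 1) * δ z) ^ (9 / 4 : ℝ))) = 1 := by
          rw [hC₂, Real.div_rpow hδz.le hL0.le, Real.mul_rpow (by positivity) hδz.le]
          have e6 : δ z ^ (9 / 4 : ℝ) = δ z ^ 2 * δ z ^ (1 / 4 : ℝ) := by
            rw [← Real.rpow_natCast (δ z) 2, ← Real.rpow_add hδz]
            norm_num
          rw [e6]
          have e7 : 0 < δ z ^ (1 / 4 : ℝ) := by positivity
          have e8 : 0 < L ^ (1 / 4 : ℝ) := by positivity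
          have e9 : 0 < (K + 1) ^ (9 / 4 : ℝ) := by positivity
          field_simp
          norm_num
        refine e5.symm.le.trans (mul_le_mul_of_nonneg_left ?_ hC₂0.le)
        exact mul_le_mul e1 e4 (by positivity) (by positivity)
      have h15 : ∫ w in E ∩ A i, Φ w ≤ J i := by
        rw [hJ]
        refine setIntegral_mono_set (hΦi.mono_set (hJset i)) ?_ ?_
        · exact (ae_restrict_iff' (hJm i)).2 (ae_of_all _ fun w hw => hΦ0 w (hJset i hw))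
        · exact (show E ∩ A i ⊆ A i ∩ ball p s from
            fun w hw => ⟨hw.2, (hED hw.1).2⟩).eventuallyLE
      calc C₁ * ∫ w in E ∩ A i, Φ w ≤ C₁ * J i * 1 := by
            rw [mul_one]
            exact mul_le_mul_of_nonneg_left h15 hC₁
        _ ≤ C₁ * J i * (C₂ * (δ (x i) ^ 2 *
              (infDist z Dᶜ ^ (1 / 4 : ℝ) / ‖vv δ h z (x i)‖ ^ (9 / 4 : ℝ)))) :=
            mul_le_mul_of_nonneg_left h14 (mul_nonneg hC₁ (hJ0 i))
        _ = _ := by ring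
    have hsumm : Summable fun i => C₁ * C₂ * J i * δ (x i) ^ 2 *
        (infDist z Dᶜ ^ (1 / 4 : ℝ) / ‖vv δ h z (x i)‖ ^ (9 / 4 : ℝ)) := by
      refine Summable.of_nonneg_of_le (fun i => ?_) (fun i => ?_)
        (hJs.summable.mul_left (C₁ * C₂ * (4 * (2 * L) ^ (1 / 4 : ℝ))))
      · have := hJ0 i
        have h3 : 0 ≤ infDist z Dᶜ := infDist_nonneg
        positivity
      · obtain ⟨h2, h3, h4⟩ := hV0 z hz1 i
        have h5 := hδ0 _ (hx i)
        have e1 : δ (x i) ^ 2 ≤ (2 * ‖vv δ h z (x i)‖) ^ 2 := pow_le_pow_left₀ h5.le h3 2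
        have e2 : infDist z Dᶜ ^ (1 / 4 : ℝ) ≤ (2 * L * ‖vv δ h z (x i)‖) ^ (1 / 4 : ℝ) :=
          Real.rpow_le_rpow infDist_nonneg h4 (by norm_num)
        have e3 : δ (x i) ^ 2 * (infDist z Dᶜ ^ (1 / 4 : ℝ) / ‖vv δ h z (x i)‖ ^ (9 / 4 : ℝ)) ≤
            4 * (2 * L) ^ (1 / 4 : ℝ) := by
          rw [mul_div_assoc', div_le_iff₀ (by positivity)]
          have e4 : ‖vv δ h z (x i)‖ ^ (9 / 4 : ℝ) =
              ‖vv δ h z (x i)‖ ^ 2 * ‖vv δ h z (x i)‖ ^ (1 / 4 : ℝ) := by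
            rw [← Real.rpow_natCast _ 2, ← Real.rpow_add h2]
            norm_num
          rw [Real.mul_rpow (by positivity) h2.le] at e2
          rw [e4]
          have h6 : 0 ≤ infDist z Dᶜ ^ (1 / 4 : ℝ) := Real.rpow_nonneg infDist_nonneg _
          calc δ (x i) ^ 2 * infDist z Dᶜ ^ (1 / 4 : ℝ)
              ≤ (2 * ‖vv δ h z (x i)‖) ^ 2 *
                ((2 * L) ^ (1 / 4 : ℝ) * ‖vv δ h z (x i)‖ ^ (1 / 4 : ℝ)) :=
                mul_le_mul e1 e2 h6 (by positivity)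
            _ = _ := by ring
        have h6 : 0 ≤ C₁ * C₂ * J i := mul_nonneg hC₁₂ (hJ0 i)
        calc C₁ * C₂ * J i * δ (x i) ^ 2 *
              (infDist z Dᶜ ^ (1 / 4 : ℝ) / ‖vv δ h z (x i)‖ ^ (9 / 4 : ℝ)) =
            C₁ * C₂ * J i * (δ (x i) ^ 2 *
              (infDist z Dᶜ ^ (1 / 4 : ℝ) / ‖vv δ h z (x i)‖ ^ (9 / 4 : ℝ))) := by ring
          _ ≤ C₁ * C₂ * J i * (4 * (2 * L) ^ (1 / 4 : ℝ)) := mul_le_mul_of_nonneg_left e3 h6
          _ = _ := by ring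
    have hΦE : ∫ w in (fun X => z + X) '' Ez δ h t z, G w / infDist w Dᶜ ^ (n + 1) =
        ∫ w in E, Φ w := by rw [hE, hΦ]
    rw [hΦE, ← (hsumE.mul_left C₁).tsum_eq]
    exact (hsumE.mul_left C₁).summable.tsum_le_tsum hterm hsumm

end Pool.Agent.MPca0fc2.BE
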