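import Pool.Agent.Lib.MP_ca0fc2_an.BE.M2

/-! Functions with a finite Besov integral near a boundary point are in the Carleson class: all
exponents. -/

set_option autoImplicit false

open Metric Set MeasureTheory Filter Topology

namespace Pool.Agent.MPca0fc2.BE

open Pool.Agent.MPca0fc2.FD
open Pool.Agent.Lib.MP_ca0fc2_an

variable {n : ℕ}

theorem besov_carl (hn : 1 ≤ n) {D U : Set (Ec n)} {ρ : Ec n → ℝ}
    {h : Ec n → Ec n → Fin n → ℂ} {c : ℝ} (hs : SupportData D U ρ h c) {p : Ec n}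
    (hp : p ∈ frontier D) :
    ∃ R > 0, ∀ r r' : ℝ, r' < r → r' ≤ R → ∀ v : Ec n → ℂ, IsHinf (D ∩ ball p r) v →
      ∀ (q : ℝ) (G : Ec n → ℝ), 0 < q →
      IntegrableOn (fun z => G z / infDist z Dᶜ ^ (n + 1)) (D ∩ ball p r) →
      (∀ φ : ℂ → Ec n, DifferentiableOn ℂ φ (ball 0 1) →
        (∀ x ∈ ball (0 : ℂ) 1, φ x ∈ D ∩ ball p r) →
        ‖deriv (fun x => v (φ x)) 0‖ ^ q ≤ G (φ 0)) →
      v ∈ CarlOn D (ball p r') := by
  obtain ⟨R, hR, H⟩ := besov_nat hn hs hp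
  refine ⟨R, hR, fun r r' hr hrR v hv q G hq hG hvG => ?_⟩
  obtain ⟨k, hk⟩ : ∃ k : ℕ, k = ⌈q⌉₊ := ⟨_, rfl⟩
  have hk1 : 1 ≤ k := by
    rw [hk]
    exact Nat.one_le_iff_ne_zero.2 (Nat.ceil_pos.2 hq).ne'
  have hqk : q ≤ k := by rw [hk]; exact Nat.le_ceil q
  obtain ⟨M, hM⟩ := hv.2
  obtain ⟨B, hB⟩ : ∃ B : ℝ, B = 2 * |M| + 1 := ⟨_, rfl⟩
  have hB1 : 1 ≤ B := by rw [hB]; linarith [abs_nonneg M]
  refine H r r' hr hrR v hv k (fun z => B ^ ((k : ℝ) - q) * G z) hk1 ?_ fun φ hφ hφD => ?_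
  · have e1 : (fun z => B ^ ((k : ℝ) - q) * G z / infDist z Dᶜ ^ (n + 1)) =
        fun z => B ^ ((k : ℝ) - q) * (G z / infDist z Dᶜ ^ (n + 1)) := by
      funext z
      rw [mul_div_assoc]
    rw [e1]
    exact hG.const_mul _
  · have h1 := hvG φ hφ hφD
    have hd1 : DifferentiableOn ℂ (fun x => v (φ x)) (ball 0 1) := hv.1.comp hφ hφD
    have hmaps : MapsTo (fun x => v (φ x)) (ball 0 1)
        (closedBall ((fun x => v (φ x)) 0) (2 * |M| + 1)) := by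
      intro x hx
      rw [mem_closedBall, dist_eq_norm]
      have h3 := hM _ (hφD x hx)
      have h4 := hM _ (hφD 0 (mem_ball_self one_pos))
      have h5 := le_abs_self M
      calc ‖v (φ x) - v (φ 0)‖ ≤ ‖v (φ x)‖ + ‖v (φ 0)‖ := norm_sub_le _ _
        _ ≤ 2 * |M| + 1 := by linarith
    have h6 := Complex.norm_deriv_le_div_of_mapsTo_ball hd1 hmaps one_pos
    rw [div_one, ← hB] at h6
    obtain ⟨y, hy⟩ : ∃ y, y = ‖deriv (fun x => v (φ x)) 0‖ := ⟨_, rfl⟩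
    rw [← hy] at h1 h6 ⊢
    have hy0 : 0 ≤ y := by rw [hy]; exact norm_nonneg _
    have e2 : y ^ k = y ^ q * y ^ ((k : ℝ) - q) := by
      rw [← Real.rpow_add_of_nonneg hy0 hq.le (by linarith), ← Real.rpow_natCast]
      congr 1
      ring
    have hyq : 0 ≤ y ^ q := Real.rpow_nonneg hy0 _
    have h7 : y ^ ((k : ℝ) - q) ≤ B ^ ((k : ℝ) - q) := Real.rpow_le_rpow hy0 h6 (by linarith)
    calc y ^ k = y ^ q * y ^ ((k : ℝ) - q) := e2
      _ ≤ G (φ 0) * B ^ ((k : ℝ) - q) :=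
          mul_le_mul h1 h7 (Real.rpow_nonneg hy0 _) (hyq.trans h1)
      _ = B ^ ((k : ℝ) - q) * G (φ 0) := mul_comm _ _

end Pool.Agent.MPca0fc2.BE
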